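import Mathlib
import Pool.Agent.TH364.SG.QS4
import Pool.Agent.TH364.SG.LpFail
import Pool.Agent.Results.MP_fd02da_an.SchattenIsometries

set_option autoImplicit false

/-!
# Coarse, uniform and quasisymmetric embeddings into the trace class force `q_X = 2`
-/

namespace Pool.Agent.Results.MP_428398_an.TraceClassEmbeddings

open Pool.Agent.Results.MP_fd02da_an.SchattenIsometries
open scoped ENNReal NNReal
open Filter MeasureTheory Topology

universe u v

/-- The trace class `S_1(H)`: the compact operators `T` on `H` with `tr (T* T)^(1/2) < ∞`, normed by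
`tr (T* T)^(1/2)`. -/
noncomputable abbrev TraceClass (H : Type v) [NormedAddCommGroup H] [InnerProductSpace ℂ H]
    [CompleteSpace H] : Type v := SchattenClass (1 : ℝ) H

/-- Rademacher cotype `q`: for some constant `C`, for all `n` and `x_1, ..., x_n`,
`∑ ‖x_j‖^q ≤ C^q E ‖∑ ε_j x_j‖^q`, the expectation being over independent uniform signs. -/
def RademacherCotype (q : ℝ) (X : Type u) [NormedAddCommGroup X] [NormedSpace ℝ X] : Prop :=
  ∃ C : ℝ, 0 < C ∧ ∀ (n : ℕ) (x : Fin n → X), ∑ j, ‖x j‖ ^ q ≤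
    C ^ q * ((2 ^ n : ℝ)⁻¹ * ∑ ε : Fin n → Bool, ‖∑ j, (if ε j then (1 : ℝ) else -1) • x j‖ ^ q)

/-- The cotype index `q_X = inf {q ≥ 2 : X has Rademacher cotype q}`, which is `∞` if there is no
such `q`. -/
noncomputable def cotypeIndex (X : Type u) [NormedAddCommGroup X] [NormedSpace ℝ X] : ℝ≥0∞ :=
  ⨅ (q : ℝ) (_ : 2 ≤ q ∧ RademacherCotype q X), ENNReal.ofReal q

/-- Coarse embeddings. -/
def IsCoarseEmbedding {X : Type u} {Y : Type v} [PseudoMetricSpace X] [PseudoMetricSpace Y]
    (f : X → Y) : Prop :=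
  ∃ α β : ℝ≥0 → ℝ≥0, Monotone α ∧ Monotone β ∧ Tendsto α atTop atTop ∧
    ∀ x y, α (nndist x y) ≤ nndist (f x) (f y) ∧ nndist (f x) (f y) ≤ β (nndist x y)

/-- Quasisymmetric embeddings: injective maps `f` for which there is a non-decreasing function
`η : (0,∞) → (0,∞)` with `η(t) → 0` as `t → 0` and
`d(f x, f y) / d(f x, f z) ≤ η (d(x, y) / d(x, z))` for all pairwise distinct `x, y, z`. -/
def IsQuasisymmetricEmbedding {X : Type u} {Y : Type v} [PseudoMetricSpace X] [PseudoMetricSpace Y]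
    (f : X → Y) : Prop :=
  Function.Injective f ∧ ∃ η : ℝ → ℝ, (∀ t, 0 < t → 0 < η t) ∧ MonotoneOn η (Set.Ioi 0) ∧
    Tendsto η (𝓝[>] 0) (𝓝 0) ∧ ∀ x y z, x ≠ y → y ≠ z → x ≠ z →
      dist (f x) (f y) / dist (f x) (f z) ≤ η (dist x y / dist x z)

/-- The space `L_p(0,1)` of real functions. -/
noncomputable abbrev L01 (p : ℝ≥0∞) : Type := Lp ℝ p (volume.restrict (Set.Icc (0 : ℝ) 1))

theorem cotype_iff {q : ℝ} {X : Type u} [NormedAddCommGroup X] [NormedSpace ℝ X] :
    TH364.SG.HasCotype q X ↔ RademacherCotype q X := by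
  have e : ∀ (n : ℕ) (x : Fin n → X), TH364.SG.rav q x =
      (2 ^ n : ℝ)⁻¹ * ∑ ε : Fin n → Bool, ‖∑ j, (if ε j then (1 : ℝ) else -1) • x j‖ ^ q := by
    intro n x
    unfold TH364.SG.rav TH364.SG.rs
    rw [Fintype.card_fin]
    congr 1
    refine Finset.sum_congr rfl fun ε _ => ?_
    congr 2
    refine Finset.sum_congr rfl fun j _ => ?_
    cases ε j <;> simp [TH364.SG.sg]
  unfold TH364.SG.HasCotype RademacherCotype
  simp only [e]

theorem index_eq_two {X : Type u} [NormedAddCommGroup X] [NormedSpace ℝ X]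
    (h : ∀ q : ℝ, 2 < q → RademacherCotype q X) : cotypeIndex X = 2 := by
  unfold cotypeIndex
  apply le_antisymm
  · apply le_of_forall_gt
    intro c hc
    obtain ⟨q, hq0, hq2, hqc⟩ := ENNReal.lt_iff_exists_real_btwn.1 hc
    have hq : 2 < q := by
      by_contra hcon
      push Not at hcon
      have : ENNReal.ofReal q ≤ 2 := by
        calc ENNReal.ofReal q ≤ ENNReal.ofReal 2 := ENNReal.ofReal_le_ofReal hcon
          _ = 2 := by simp
      exact absurd hq2 (not_lt.2 this)
    refine lt_of_le_of_lt ?_ hqc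
    exact iInf₂_le q ⟨hq.le, h q hq⟩
  · refine le_iInf₂ fun q hq => ?_
    calc (2 : ℝ≥0∞) = ENNReal.ofReal 2 := by simp
      _ ≤ ENNReal.ofReal q := ENNReal.ofReal_le_ofReal hq.1

section
variable {X : Type u} [NormedAddCommGroup X] [NormedSpace ℝ X]
variable {H : Type v} [NormedAddCommGroup H] [InnerProductSpace ℂ H] [CompleteSpace H]

theorem coarse_cotype {f : X → TraceClass H} (hf : IsCoarseEmbedding f) {q : ℝ} (hq : 2 < q) :
    RademacherCotype q X := by
  obtain ⟨α, β, hα, hβ, hlim, h⟩ := hf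
  obtain ⟨T, hT⟩ := (hlim.eventually (eventually_ge_atTop (30721 * (β 1 + 1)))).exists
  refine cotype_iff.1 (TH364.SG.gap_cotype (g := f) (s := 1) (b := (β 1 : ℝ) + 1) (T := T)
    one_pos (by positivity) ?_ ?_ hq)
  · intro x y hxy
    have h1 : nndist x y ≤ 1 := by
      rw [← NNReal.coe_le_coe, coe_nndist, dist_eq_norm]; exact hxy
    have h2 := (h x y).2.trans (hβ h1)
    rw [← NNReal.coe_le_coe, coe_nndist, dist_eq_norm] at h2
    linarith
  · intro x y hxy
    have h1 : T ≤ nndist x y := by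
      rw [← NNReal.coe_le_coe, coe_nndist, dist_eq_norm]; linarith
    have h2 := (hT.trans (hα h1)).trans (h x y).1
    rw [← NNReal.coe_le_coe, coe_nndist, dist_eq_norm] at h2
    push_cast at h2
    exact h2

theorem uniform_cotype {f : X → TraceClass H} (hf : IsUniformEmbedding f) {q : ℝ} (hq : 2 < q) :
    RademacherCotype q X := by
  obtain ⟨hc, hi⟩ := Metric.isUniformEmbedding_iff'.1 hf
  obtain ⟨ε, hε, h1⟩ := hi 1 one_pos
  obtain ⟨δ, hδ, h2⟩ := hc (ε / 30721) (by positivity)
  refine cotype_iff.1 (TH364.SG.gap_cotype (g := f) (s := δ / 2) (b := ε / 30721) (T := 2 / δ)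
    (by positivity) (by positivity) ?_ ?_ hq)
  · intro x y hxy
    rw [← dist_eq_norm] at hxy ⊢
    exact (h2 (by linarith)).le
  · intro x y hxy
    have e : 2 / δ * (δ / 2) = 1 := by field_simp
    rw [e, ← dist_eq_norm] at hxy
    rw [← dist_eq_norm]
    by_contra hcon
    push Not at hcon
    have h3 : dist (f x) (f y) < ε := by linarith
    linarith [h1 h3]

theorem qs_cotype {f : X → TraceClass H} (hf : IsQuasisymmetricEmbedding f) {q : ℝ} (hq : 2 < q) :
    RademacherCotype q X := by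
  obtain ⟨hinj, η, hpos, hmono, hlim, h⟩ := hf
  refine cotype_iff.1 (TH364.SG.qs_cotype (g := f) (η := η) ⟨hpos, ?_, hinj, ?_⟩ ?_ hq)
  · intro s t hs hst
    exact hmono hs (lt_of_lt_of_le hs hst) hst
  · intro x y z hxy hyz hxz
    have h1 := h x y z hxy hyz hxz
    have h2 : 0 < dist (f x) (f z) := dist_pos.2 fun hc => hxz (hinj hc)
    rw [div_le_iff₀ h2] at h1
    simpa only [dist_eq_norm] using h1
  · intro ε hε
    have h1 : ∀ᶠ t in 𝓝[>] (0 : ℝ), η t < ε := hlim.eventually (gt_mem_nhds hε)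
    obtain ⟨t, ht1, ht2⟩ := (h1.and self_mem_nhdsWithin).exists
    exact ⟨t, ht2, ht1.le⟩

end

theorem index_L01 (p : ℝ≥0∞) [Fact (1 ≤ p)] (hp : 2 < p) : cotypeIndex (L01 p) ≠ 2 := by
  intro hcon
  obtain ⟨q0, hq00, hq01, hq02⟩ := ENNReal.lt_iff_exists_real_btwn.1 hp
  have hq02' : cotypeIndex (L01 p) < ENNReal.ofReal q0 := by rw [hcon]; exact hq01
  unfold cotypeIndex at hq02'
  rw [iInf_lt_iff] at hq02'
  obtain ⟨q, hq⟩ := hq02'
  rw [iInf_lt_iff] at hq
  obtain ⟨⟨hq2, hqc⟩, hqlt⟩ := hq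
  refine TH364.SG.not_cotype_Lp p (q := q) (by linarith) ?_ (cotype_iff.2 hqc)
  have hqp : ENNReal.ofReal q < p := hqlt.trans hq02
  rcases eq_or_ne p ⊤ with h | h
  · rw [h]; simp
  · have h0 : 0 < p.toReal := ENNReal.toReal_pos (by rintro rfl; simp at hp) h
    rw [div_lt_one h0]
    exact (ENNReal.ofReal_lt_iff_lt_toReal (by linarith) h).1 hqp

/-- **Main theorem.** (1) A real normed space which admits a coarse, a uniform or a quasisymmetric
embedding into the trace class of a complex Hilbert space has cotype index `2`. (2) For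
`2 < p ≤ ∞` the space `L_p(0,1)` admits none of the three. -/
theorem result :
    (∀ {X : Type u} [NormedAddCommGroup X] [NormedSpace ℝ X] {H : Type v} [NormedAddCommGroup H]
      [InnerProductSpace ℂ H] [CompleteSpace H] (f : X → TraceClass H),
      (IsCoarseEmbedding f ∨ IsUniformEmbedding f ∨ IsQuasisymmetricEmbedding f) →
        cotypeIndex X = 2) ∧
    (∀ (p : ℝ≥0∞) [Fact (1 ≤ p)], 2 < p → ∀ {H : Type v} [NormedAddCommGroup H]
      [InnerProductSpace ℂ H] [CompleteSpace H] (f : L01 p → TraceClass H),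
      ¬ IsCoarseEmbedding f ∧ ¬ IsUniformEmbedding f ∧ ¬ IsQuasisymmetricEmbedding f) := by
  refine ⟨?_, ?_⟩
  · intro X _ _ H _ _ _ f hf
    refine index_eq_two fun q hq => ?_
    rcases hf with hf | hf | hf
    · exact coarse_cotype hf hq
    · exact uniform_cotype hf hq
    · exact qs_cotype hf hq
  · intro p _ hp H _ _ _ f
    refine ⟨?_, ?_, ?_⟩
    · intro hf
      exact index_L01 p hp (index_eq_two fun q hq => coarse_cotype hf hq)
    · intro hf
      exact index_L01 p hp (index_eq_two fun q hq => uniform_cotype hf hq)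
    · intro hf
      exact index_L01 p hp (index_eq_two fun q hq => qs_cotype hf hq)

end Pool.Agent.Results.MP_428398_an.TraceClassEmbeddings
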